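import Mathlib
import Pool.Agent.Run7.h474.HTSubt

/-!
# Ramsey's theorem for differences is not uniformly reducible to finitely many parallel uses of
Hindman's theorem for sums of exactly two elements, with any number of colours

For all `m` and `k`, Ramsey's theorem for differences and two colours is not Weihrauch reducible to `m`
parallel uses of Hindman's theorem for sums of exactly two elements and `k` colours, not even with
continuous instead of computable functionals. The starting file `NotWeihrauchReducible` of this page is
the case `m = 1`, `k = 2`.

Proof idea. Several colourings may be replaced by their product, so that `m = 1` is enough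
(`no_subt`). The principle for differences computes the limit of every eventually constant sequence of
natural numbers (see the starting file), and hence a bound for every finite set. But this is not
reducible to Hindman's theorem for sums of exactly two elements and any number of colours: fix an
idempotent ultrafilter `p`; by the pigeonhole principle two of the words `2^{2l} 4^{k+1-l}` of
coefficients have the same limit colour, and this gives numbers `A`, `A'` such that a finite part of
the solution `{A + 4 g_l}` can be extended by elements `A' + 4 g'_l` after a new element was added to
the finite set (`Pool.Agent.Run7.h474.HTW2`).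
-/

set_option autoImplicit false

namespace Pool.Agent.Results.MP_98861b_lc.ParallelUses

/-! ### Definitions used in the statement -/

/-- `H` (given by its characteristic function) is an infinite set such that all differences `b - a`,
`a < b` in `H`, have the same colour. -/
def DiffSol (x : ℕ → Fin 2) (H : ℕ → Bool) : Prop :=
  {n | H n = true}.Infinite ∧ ∃ i, ∀ a b, a < b → H a = true → H b = true → x (b - a) = i

/-- `X` (given by its characteristic function) is an infinite set such that all sums of exactly
two (distinct) elements of `X` have the same colour. -/
def SumSol {k : ℕ} (c : ℕ → Fin k) (X : ℕ → Bool) : Prop :=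
  {n | X n = true}.Infinite ∧ ∃ v, ∀ a b, a < b → X a = true → X b = true → c (a + b) = v

/-! ### The result -/

/-- For all `m` and `k`: there are no `Φ` and `Ψ`, continuous on the relevant domains, such that
`Φ x` is an `m`-tuple of colourings of the natural numbers with `k` colours for every colouring `x`
with two colours, and `Ψ (x, X)` is an infinite set all of whose differences have the same colour
under `x`, whenever `X` is an `m`-tuple of infinite sets such that all sums of exactly two elements
of the `i`-th set have the same colour under the `i`-th colouring of `Φ x`, for all `i`. -/
theorem result (m k : ℕ) :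
    ¬ ∃ (Φ : (ℕ → Fin 2) → (Fin m → ℕ → Fin k))
        (Ψ : (ℕ → Fin 2) × (Fin m → ℕ → Bool) → (ℕ → Bool)),
      Continuous Φ ∧
      ContinuousOn Ψ {p | ∀ i, SumSol (Φ p.1 i) (p.2 i)} ∧
      ∀ x X, (∀ i, SumSol (Φ x i) (X i)) → DiffSol x (Ψ (x, X)) := by
  rintro ⟨Φ, Ψ, h1, h2, h3⟩
  let e : (Fin m → Fin k) ≃ Fin (k ^ m) := finFunctionFinEquiv
  have key : ∀ x X, Run7.h474.HTW.HTSol (fun s => e fun i => Φ x i s) X →
      ∀ i, SumSol (Φ x i) X := by
    rintro x X ⟨h4, v, h5⟩ i
    refine ⟨h4, e.symm v i, fun a b hab ha hb => ?_⟩
    rw [← h5 a b hab ha hb, Equiv.symm_apply_apply]
  refine Run7.h474.HTW.Subt.no_subt (k := k ^ m) (Φ := fun x s => e fun i => Φ x i s)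
    (Ψ := fun p => Ψ (p.1, fun _ => p.2)) ?_ ?_ ?_
  · refine continuous_pi fun s => (continuous_of_discreteTopology (f := e)).comp ?_
    exact continuous_pi fun i => (continuous_apply s).comp ((continuous_apply i).comp h1)
  · refine h2.comp (Continuous.continuousOn ?_) fun p hp => key _ _ hp
    exact continuous_fst.prodMk (continuous_pi fun _ => continuous_snd)
  · intro x X hX
    exact h3 x (fun _ => X) (key x X hX)

end Pool.Agent.Results.MP_98861b_lc.ParallelUses
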